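import Pool.Agent.H933R2.Hopf.Mean

/-!
# Nonnegative curvature with pinched mean in dimension six

At a point where all sectional curvatures lie in `[0, c]` and the mean of the sectional curvatures is
at least `(4 / 5) c` (scalar curvature at least `24 c`), the Gauss-Bonnet-Chern integrand of
a Riemannian six-manifold is at least `1 / 100` times its value for constant curvature `c`.
See `Pool/Agent/H933R2/Hopf/` (a development of the starting repository).
-/

namespace Pool.Agent.Results.MP_4a593f_gt.MeanPinchedDimSix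

open Hopf6 MeasureTheory

/-- Nonnegative curvature with pinched mean in dimension six. -/
theorem result :
    (∀ (V : Type) [NormedAddCommGroup V] [InnerProductSpace ℝ V]
      (e : OrthonormalBasis (Fin 6) ℝ V) (R : V → V → V → V → ℝ), AlgCurv R →
      ∀ c : ℝ, 0 ≤ c → Hopf6.SecIn R 0 c → 24 * c ≤ Hopf6.scalar e R →
        1 / 100 * roundGB c ≤ Hopf6.gbc e R ∧ 0 ≤ Hopf6.gbc e R) ∧
    (∀ (M : Type) [MeasurableSpace M] (μ : Measure M) (K : CurvField M) (c : M → ℝ),
      (∀ p, 0 ≤ c p ∧ K.SecIn p 0 (c p) ∧ 24 * c p ≤ K.scal p) →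
        Integrable K.gbc μ → μ {p | 0 < c p} ≠ 0 → 0 < ∫ p, K.gbc p ∂μ) := by
  have hpt : ∀ (V : Type) [NormedAddCommGroup V] [InnerProductSpace ℝ V]
      (e : OrthonormalBasis (Fin 6) ℝ V) (R : V → V → V → V → ℝ), AlgCurv R →
      ∀ c : ℝ, 0 ≤ c → Hopf6.SecIn R 0 c → 24 * c ≤ Hopf6.scalar e R →
        1 / 100 * roundGB c ≤ Hopf6.gbc e R ∧ 0 ≤ Hopf6.gbc e R := by
    intro V _ _ e R hR c hc h hs
    have h1 := mean_point_pos e hR hc h hs
    refine ⟨h1, le_trans ?_ h1⟩
    have := roundGB_nonneg hc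
    linarith
  refine ⟨hpt, ?_⟩
  intro M _ μ K c h hint hμ
  have hle : ∀ p, 1 / 100 * roundGB (c p) ≤ K.gbc p ∧ 0 ≤ K.gbc p := fun p =>
    hpt (K.V p) (K.e p) (K.R p) (K.curv p) (c p) (h p).1 (h p).2.1 (h p).2.2
  rw [integral_pos_iff_support_of_nonneg (fun p => (hle p).2) hint]
  have hs : {p | 0 < c p} ⊆ Function.support (fun p => K.gbc p) := by
    intro p hp
    simp only [Function.mem_support]
    have h3 := (hle p).1
    have h4 := roundGB_pos (show 0 < c p from hp)
    intro h0
    linarith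
  exact lt_of_lt_of_le (pos_iff_ne_zero.2 hμ) (measure_mono hs)

end Pool.Agent.Results.MP_4a593f_gt.MeanPinchedDimSix
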