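import Pool.Agent.H933R2.Hopf.Main

/-!
# The Gauss-Bonnet-Chern integrand in dimension six for positive curvature with pinching `8 / 35`

At a point where all sectional curvatures lie in `[c, (35 / 8) c]` for some `c > 0`, the
Gauss-Bonnet-Chern integrand of a Riemannian six-manifold is at least `1 / 50` times its value for
constant curvature `c`; in particular it is positive, and so is its integral, which is the Euler
characteristic of the manifold when the manifold is closed. (For positive curvature without
pinching the integrand in dimension six can be negative.)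
See `Pool/Agent/H933R2/Hopf/` (a development of the starting repository).
-/

namespace Pool.Agent.Results.MP_4a593f_gt.PinchedDimSix

open Hopf6 MeasureTheory

/-- Positive curvature with pointwise pinching `8 / 35` in dimension six. -/
theorem result :
    (∀ (V : Type) [NormedAddCommGroup V] [InnerProductSpace ℝ V]
      (e : OrthonormalBasis (Fin 6) ℝ V) (R : V → V → V → V → ℝ), AlgCurv R →
      ∀ c : ℝ, 0 < c → Hopf6.SecIn R c (35 / 8 * c) →
        1 / 50 * roundGB c ≤ Hopf6.gbc e R ∧ 0 < Hopf6.gbc e R) ∧
    (∀ (M : Type) [MeasurableSpace M] (μ : Measure M) (K : CurvField M) (c : M → ℝ), μ ≠ 0 →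
      (∀ p, 0 < c p ∧ K.SecIn p (c p) (35 / 8 * c p)) → Integrable K.gbc μ →
        0 < ∫ p, K.gbc p ∂μ) := by
  have hpt : ∀ (V : Type) [NormedAddCommGroup V] [InnerProductSpace ℝ V]
      (e : OrthonormalBasis (Fin 6) ℝ V) (R : V → V → V → V → ℝ), AlgCurv R →
      ∀ c : ℝ, 0 < c → Hopf6.SecIn R c (35 / 8 * c) →
        1 / 50 * roundGB c ≤ Hopf6.gbc e R ∧ 0 < Hopf6.gbc e R := by
    intro V _ _ e R hR c hc h
    have h1 := point_pos e hR hc h
    refine ⟨h1, lt_of_lt_of_le ?_ h1⟩
    have := roundGB_pos hc
    linarith
  refine ⟨hpt, ?_⟩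
  intro M _ μ K c hμ h hint
  have hpos : ∀ p, 0 < K.gbc p := fun p =>
    (hpt (K.V p) (K.e p) (K.R p) (K.curv p) (c p) (h p).1 (h p).2).2
  rw [integral_pos_iff_support_of_nonneg (fun p => (hpos p).le) hint]
  have hs : Function.support (fun p => K.gbc p) = Set.univ := by
    ext p
    simp only [Function.mem_support, Set.mem_univ, iff_true]
    exact (hpos p).ne'
  rw [hs]
  exact Measure.measure_univ_pos.2 hμ

end Pool.Agent.Results.MP_4a593f_gt.PinchedDimSix
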