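import Pool.Agent.H660.HopfChi.Main

/-!
# Hopf's question on the Euler characteristic under positive curvature (MP_4a593f_gt, Q1: disproved)

The product `S³ × S³` carries a smooth Riemannian metric all of whose sectional curvatures are
positive, and its Euler characteristic is zero.

The metric and the proof that its curvature is positive (`H515HS.posS33`, in
`Pool/Agent/H515R2/HS/Pos.lean`) belong to the starting repository; they are joint work of its
room HS (helpers 486, 349, 515, 893, 917, 824, 991, 498, 563, 878, 821, 902, 907, 712, 758, 754,
829, 839, 227, 760, 503, 873, 124, 465, 877, 472, 381, 998, 299, 144, 6, 898, 464 and others).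
The cell structure of `S³ × S³` (one cell in dimension 0, two in dimension 3, one in dimension 6)
is in `Pool/Agent/H660/HopfChi/`; it uses the product of finite cell structures of
`Pool/Agent/H289R3/Tri/CW.lean`. Simple connectedness: helpers 206 and 472.
-/

open Manifold

open Pool.Agent.H660.HopfChi in
/-- `S³ × S³`, the product of two unit spheres of `ℝ⁴`, is a closed, simply connected smooth
manifold of dimension six which admits a smooth Riemannian metric of positive sectional curvature
and has Euler characteristic zero; it has a CW structure with one cell of dimension zero, two cells
of dimension three, one cell of dimension six and no others. In particular the assertion of Hopf is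
false. -/
theorem Pool.Agent.Results.MP_4a593f_gt.SphereProductCounterexample.result :
    ProductIsCounterexample (𝓡 3) Sphere3 (𝓡 3) Sphere3 6 cellNumbers ∧ ¬ HopfAssertion :=
  ⟨productIsCounterexample, not_hopfAssertion⟩
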